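import Pool.Agent.Helper2.EC_C.Goals
import Pool.Agent.Helper2.EC_C.Basic

/-! Packet S3N of MP_ecc237_nt, Part C: behaviour of `n1` at `0`. -/

set_option autoImplicit false

open MeasureTheory Filter Topology Set

namespace ECC.PkS3N

open EC237

/-- `X(e^{-πt})`. -/
noncomputable def g (t : ℝ) : ℝ := XS (Real.exp (-(Real.pi * t)))

/-- The constant `8/(81√3)`. -/
noncomputable def al : ℝ := 8 / (81 * Real.sqrt 3)

theorem pgX : PG (fun M ν => chi (M : ℤ) * (ν : ℝ) ^ 2) := PG.chi.mul (PG.N.pow 2)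

theorem pgB : PG (fun M _ => chi (M : ℤ) * (M : ℝ) ^ 2) := PG.chi.mul (PG.M.pow 2)

theorem exp_lt {t : ℝ} (ht : 0 < t) : |Real.exp (-(Real.pi * t))| < 1 := by
  rw [abs_of_pos (Real.exp_pos _), Real.exp_lt_one_iff]
  have := mul_pos Real.pi_pos ht
  linarith

theorem g_cont : ContinuousOn g (Ioi 0) := by
  intro t ht
  have h1 : ContinuousAt XS (Real.exp (-(Real.pi * t))) := LS_continuousAt pgX (exp_lt ht)
  have h2 : ContinuousAt (fun t : ℝ => Real.exp (-(Real.pi * t))) t := by fun_prop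
  exact (ContinuousAt.comp (f := fun t : ℝ => Real.exp (-(Real.pi * t))) h1 h2).continuousWithinAt

theorem g_bound {y : ℝ} (hy : 0 < y) :
    ∃ C : ℝ, ∀ t : ℝ, y ≤ t → |g t| ≤ C * Real.exp (-Real.pi * t) := by
  have hr := exp_lt hy
  rw [abs_of_pos (Real.exp_pos _)] at hr
  obtain ⟨C, _, h⟩ := LS_bound pgX hr
  refine ⟨C, fun t ht => ?_⟩
  have h1 := h (Real.exp (-(Real.pi * t))) (by
    rw [abs_of_pos (Real.exp_pos _)]
    refine Real.exp_le_exp.2 (neg_le_neg ?_)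
    exact mul_le_mul_of_nonneg_left ht Real.pi_pos.le)
  rw [abs_of_pos (Real.exp_pos _)] at h1
  rw [neg_mul]
  exact h1

theorem g_int {y : ℝ} (hy : 0 < y) : IntegrableOn g (Ioi y) := by
  obtain ⟨C, hC⟩ := g_bound hy
  have h1 : IntegrableOn (fun t : ℝ => C * Real.exp (-Real.pi * t)) (Ioi y) :=
    (exp_neg_integrableOn_Ioi y Real.pi_pos).const_mul C
  refine Integrable.mono' h1 ?_ ?_
  · exact (g_cont.mono fun t (ht : y < t) => lt_trans hy ht).aestronglyMeasurable measurableSet_Ioi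
  · refine (ae_restrict_iff' measurableSet_Ioi).2 (Eventually.of_forall fun t ht => ?_)
    rw [Real.norm_eq_abs]
    exact hC t (le_of_lt ht)

theorem chi_two (M : ℕ) : chi ((2 * M : ℕ) : ℤ) = -chi (M : ℤ) := by
  unfold chi
  push_cast
  have h : (M:ℤ) % 3 = 0 ∨ (M:ℤ) % 3 = 1 ∨ (M:ℤ) % 3 = 2 := by omega
  rcases h with h | h | h
  · have h2 : (2 * (M:ℤ)) % 3 = 0 := by omega
    rw [h, h2]
    norm_num
  · have h2 : (2 * (M:ℤ)) % 3 = 2 := by omega
    rw [h, h2]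
    norm_num
  · have h2 : (2 * (M:ℤ)) % 3 = 1 := by omega
    rw [h, h2]
    norm_num

theorem sum_eq {q : ℝ} (hq : |q| < 1) :
    LS (fun M ν => chi (M:ℤ) * (ν:ℝ) ^ 2 * (-1) ^ (ν * (M - 1))) q =
      XS q + 2 * XS (q ^ 2) - 8 * XS (q ^ 4) := by
  have e1 := LS_sieveM (fun M ν => chi (M : ℤ) * (ν : ℝ) ^ 2) (d := 2) (by norm_num) q
  have e2 : LS (fun M ν => chi ((2 * M : ℕ) : ℤ) * (ν : ℝ) ^ 2) (q ^ 2) = -XS (q ^ 2) := by
    unfold XS
    rw [← LS_neg]
    refine LS_congr (fun M ν _ _ => ?_) _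
    rw [chi_two]
    ring
  have e3 : LS (fun M ν => if 2 ∣ ν then (if 2 ∣ M then chi (M : ℤ) * (ν : ℝ) ^ 2 else 0) else 0) q =
      LS (fun M ν => chi ((2 * M : ℕ) : ℤ) * ((2 * ν : ℕ) : ℝ) ^ 2) (q ^ 4) := by
    rw [LS_sieveN (fun M ν => if 2 ∣ M then chi (M : ℤ) * (ν : ℝ) ^ 2 else 0) (d := 2)
      (by norm_num) q,
      LS_sieveM (fun M ν => chi (M : ℤ) * ((2 * ν : ℕ) : ℝ) ^ 2) (d := 2) (by norm_num) (q ^ 2),
      ← pow_mul]
  have e4 : LS (fun M ν => chi ((2 * M : ℕ) : ℤ) * ((2 * ν : ℕ) : ℝ) ^ 2) (q ^ 4) =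
      -4 * XS (q ^ 4) := by
    unfold XS
    rw [← LS_mul_left]
    refine LS_congr (fun M ν _ _ => ?_) _
    rw [chi_two]
    push_cast
    ring
  have g1 := pgX.ite (fun M _ => 2 ∣ M)
  have g3 := g1.ite (fun _ ν => 2 ∣ ν)
  have e5 : LS (fun M ν => chi (M:ℤ) * (ν:ℝ) ^ 2 * (-1) ^ (ν * (M - 1))) q =
      LS (fun M ν => chi (M : ℤ) * (ν : ℝ) ^ 2 -
        2 * (if 2 ∣ M then chi (M : ℤ) * (ν : ℝ) ^ 2 else 0) +
        2 * (if 2 ∣ ν then (if 2 ∣ M then chi (M : ℤ) * (ν : ℝ) ^ 2 else 0) else 0)) q := by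
    refine LS_congr (fun M ν hM _ => ?_) _
    rcases Nat.even_or_odd M with h1 | h1
    · have h1' := h1.two_dvd
      have h3 : Odd (M - 1) := Nat.Even.sub_odd hM h1 odd_one
      rcases Nat.even_or_odd ν with h2 | h2
      · have h2' := h2.two_dvd
        rw [(h2.mul_right _).neg_one_pow]
        simp only [h1', h2', if_true]
        ring
      · have h2' : ¬ 2 ∣ ν := by rw [← even_iff_two_dvd]; exact Nat.not_even_iff_odd.mpr h2
        rw [(h2.mul h3).neg_one_pow]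
        simp only [h1', h2', if_true, if_false]
        ring
    · have h1' : ¬ 2 ∣ M := by rw [← even_iff_two_dvd]; exact Nat.not_even_iff_odd.mpr h1
      have h3 : Even (M - 1) := Nat.Odd.sub_odd h1 odd_one
      rw [(h3.mul_left _).neg_one_pow]
      simp only [h1', if_false, ite_self]
      ring
  rw [e5, LS_add (pgX.sub ((PG.const 2).mul g1)) ((PG.const 2).mul g3) hq,
    LS_sub pgX ((PG.const 2).mul g1) hq, LS_mul_left, LS_mul_left, e1, e2, e3, e4]
  unfold XS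
  ring

theorem D1_eq {y : ℝ} (hy : 0 < y) :
    D1 y = Real.pi ^ 3 * (g y + 2 * g (2 * y) - 8 * g (4 * y)) := by
  have h := sum_eq (exp_lt hy)
  have e2 : Real.exp (-(Real.pi * y)) ^ 2 = Real.exp (-(Real.pi * (2 * y))) := by
    rw [← Real.exp_nat_mul]
    congr 1
    push_cast
    ring
  have e4 : Real.exp (-(Real.pi * y)) ^ 4 = Real.exp (-(Real.pi * (4 * y))) := by
    rw [← Real.exp_nat_mul]
    congr 1
    push_cast
    ring
  rw [e2, e4] at h
  unfold D1 g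
  rw [← h]
  congr 1
  unfold LS
  refine tsum_congr fun p => ?_
  unfold sgn2 QQ
  rw [← Real.exp_nat_mul]
  have h1 : p.1 + 1 - 1 = p.1 := rfl
  simp only [h1]
  push_cast
  congr 1
  congr 1
  ring

theorem g_eq (xt : G_XT) {t : ℝ} (ht : 0 < t) :
    g t = al * (t⁻¹) ^ 3 * bS (Real.exp (-(4 * Real.pi / (3 * t)))) := by
  have h := xt (2 / (3 * t)) (by positivity)
  have e1 : -(2 * Real.pi / (3 * (2 / (3 * t)))) = -(Real.pi * t) := by
    field_simp
  have e2 : -(2 * Real.pi * (2 / (3 * t))) = -(4 * Real.pi / (3 * t)) := by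
    field_simp
    ring
  rw [e1, e2] at h
  unfold g al
  rw [h]
  have h3 : Real.sqrt 3 ≠ 0 := by positivity
  field_simp
  ring

/-- The error. -/
noncomputable def er (t : ℝ) : ℝ := g t - al * (t⁻¹) ^ 3

theorem al_pos : 0 < al := by unfold al; positivity

theorem er_bound (xt : G_XT) :
    ∃ C : ℝ, 0 ≤ C ∧ ∀ t : ℝ, 0 < t → t ≤ 5 → |er t| ≤ C * Real.exp (-t⁻¹) := by
  have hpi := Real.pi_gt_three
  have hr : Real.exp (-(4 * Real.pi / 15)) < 1 := by
    rw [Real.exp_lt_one_iff]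
    have : 0 < 4 * Real.pi / 15 := by positivity
    linarith
  obtain ⟨C, hC, h⟩ := LS_bound pgB hr
  refine ⟨al * 9 * C * 6, by have := al_pos; positivity, fun t ht ht5 => ?_⟩
  have hq : |Real.exp (-(4 * Real.pi / (3 * t)))| ≤ Real.exp (-(4 * Real.pi / 15)) := by
    rw [abs_of_pos (Real.exp_pos _)]
    refine Real.exp_le_exp.2 (neg_le_neg ?_)
    refine div_le_div_of_nonneg_left (by positivity) (by positivity) ?_
    linarith
  have h1 := h _ hq
  rw [abs_of_pos (Real.exp_pos _)] at h1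
  have e1 : er t = -(al * (t⁻¹) ^ 3 * 9) *
      LS (fun M _ => chi (M : ℤ) * (M : ℝ) ^ 2) (Real.exp (-(4 * Real.pi / (3 * t)))) := by
    unfold er
    rw [g_eq xt ht]
    unfold bS
    ring
  have hx : 0 < t⁻¹ := inv_pos.2 ht
  have h2 : (t⁻¹) ^ 3 / (Nat.factorial 3 : ℝ) ≤ Real.exp (t⁻¹) :=
    Real.pow_div_factorial_le_exp (t⁻¹) hx.le 3
  have h3 : (t⁻¹) ^ 3 ≤ 6 * Real.exp (t⁻¹) := by
    have h4 : (Nat.factorial 3 : ℝ) = 6 := by norm_num [Nat.factorial]
    rw [h4] at h2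
    linarith
  have h4 : Real.exp (-(4 * Real.pi / (3 * t))) ≤ Real.exp (-(2 * t⁻¹)) := by
    refine Real.exp_le_exp.2 (neg_le_neg ?_)
    have h5 : 4 * Real.pi / (3 * t) = (4 * Real.pi / 3) * t⁻¹ := by field_simp
    rw [h5]
    exact mul_le_mul_of_nonneg_right (by linarith) hx.le
  have hal := al_pos
  rw [e1, abs_mul, abs_neg, abs_of_pos (by positivity)]
  calc al * (t⁻¹) ^ 3 * 9 * |LS (fun M _ => chi (M : ℤ) * (M : ℝ) ^ 2)
        (Real.exp (-(4 * Real.pi / (3 * t))))|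
      ≤ al * (6 * Real.exp (t⁻¹)) * 9 * (C * Real.exp (-(2 * t⁻¹))) := by
        refine mul_le_mul ?_ (h1.trans (mul_le_mul_of_nonneg_left h4 hC)) (abs_nonneg _)
          (by positivity)
        refine mul_le_mul_of_nonneg_right (mul_le_mul_of_nonneg_left h3 hal.le) (by norm_num)
    _ = al * 9 * C * 6 * (Real.exp (t⁻¹) * Real.exp (-(2 * t⁻¹))) := by ring
    _ = al * 9 * C * 6 * Real.exp (-t⁻¹) := by
        rw [← Real.exp_add]
        congr 2
        ring

theorem er_cont : ContinuousOn er (Ioi 0) := by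
  unfold er
  refine g_cont.sub (ContinuousOn.mul continuousOn_const (ContinuousOn.pow ?_ 3))
  exact continuousOn_inv₀.mono fun t (ht : 0 < t) => ne_of_gt ht

theorem er_int (xt : G_XT) : IntegrableOn er (Ioc 0 5) := by
  obtain ⟨C, hC, h⟩ := er_bound xt
  have hc : IntegrableOn (fun _ : ℝ => C) (Ioc 0 5) := by
    rw [integrableOn_const_iff]
    right
    simp
  refine Integrable.mono' hc ?_ ?_
  · exact (er_cont.mono fun t ht => ht.1).aestronglyMeasurable measurableSet_Ioc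
  · refine (ae_restrict_iff' measurableSet_Ioc).2 (Eventually.of_forall fun t ht => ?_)
    rw [Real.norm_eq_abs]
    refine (h t ht.1 ht.2).trans ?_
    have h1 : Real.exp (-t⁻¹) ≤ 1 := by
      rw [Real.exp_le_one_iff]
      have := inv_pos.2 ht.1
      linarith
    exact mul_le_of_le_one_right hC h1

/-- `∫_y^∞ X(e^{-πt}) dt`. -/
noncomputable def NN (y : ℝ) : ℝ := ∫ t in Ioi y, g t

theorem NN_eq (xt : G_XT) : ∃ κ C : ℝ, 0 ≤ C ∧ ∀ y : ℝ, 0 < y → y ≤ 5 →
    |NN y - (al / 2 * (y⁻¹) ^ 2 + κ)| ≤ C * Real.exp (-y⁻¹) := by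
  obtain ⟨C, hC, h⟩ := er_bound xt
  refine ⟨NN 5 - al / 50 + ∫ t in (0:ℝ)..5, er t, C * 5, by positivity, fun y hy hy5 => ?_⟩
  have hint := er_int xt
  have i1 : IntervalIntegrable er volume 0 y := by
    rw [intervalIntegrable_iff_integrableOn_Ioc_of_le hy.le]
    exact hint.mono_set (Ioc_subset_Ioc_right hy5)
  have i2 : IntervalIntegrable er volume y 5 := by
    rw [intervalIntegrable_iff_integrableOn_Ioc_of_le hy5]
    exact hint.mono_set (Ioc_subset_Ioc_left hy.le)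
  have e1 := intervalIntegral.integral_add_adjacent_intervals i1 i2
  have e2 : NN y = (∫ t in y..5, g t) + NN 5 := by
    unfold NN
    rw [intervalIntegral.integral_of_le hy5, ← setIntegral_union
      (Set.Ioc_disjoint_Ioi (le_refl _)) measurableSet_Ioi
      ((g_int hy).mono_set (fun t ht => ht.1)) (g_int (by norm_num)),
      Ioc_union_Ioi_eq_Ioi hy5]
  have hcont3 : ContinuousOn (fun t : ℝ => al * (t⁻¹) ^ 3) (uIcc y 5) := by
    refine ContinuousOn.mul continuousOn_const (ContinuousOn.pow ?_ 3)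
    refine continuousOn_inv₀.mono fun t ht => ?_
    rw [uIcc_of_le hy5] at ht
    exact ne_of_gt (lt_of_lt_of_le hy ht.1)
  have i3 : IntervalIntegrable (fun t : ℝ => al * (t⁻¹) ^ 3) volume y 5 :=
    hcont3.intervalIntegrable
  have e3 : ∫ t in y..5, g t = (∫ t in y..5, er t) + ∫ t in y..5, al * (t⁻¹) ^ 3 := by
    rw [← intervalIntegral.integral_add i2 i3]
    refine intervalIntegral.integral_congr fun t _ => ?_
    show g t = er t + al * (t⁻¹) ^ 3
    unfold er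
    ring
  have e4 : ∫ t in y..5, al * (t⁻¹) ^ 3 = al / 2 * (y⁻¹) ^ 2 - al / 50 := by
    have h5 := intervalIntegral.integral_eq_sub_of_hasDerivAt
      (f := fun t : ℝ => -(al / 2 * (t⁻¹) ^ 2)) (f' := fun t : ℝ => al * (t⁻¹) ^ 3)
      (a := y) (b := 5) (fun t ht => by
        rw [uIcc_of_le hy5] at ht
        have ht0 : t ≠ 0 := ne_of_gt (lt_of_lt_of_le hy ht.1)
        have h6 := (((hasDerivAt_inv ht0).pow 2).const_mul (al / 2)).neg
        refine h6.congr_deriv ?_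
        simp only [Nat.cast_ofNat, Nat.add_one_sub_one, pow_one]
        field_simp) i3
    rw [h5]
    norm_num
    ring
  have e5 : |∫ t in (0:ℝ)..y, er t| ≤ C * Real.exp (-y⁻¹) * |y - 0| := by
    rw [← Real.norm_eq_abs]
    refine intervalIntegral.norm_integral_le_of_norm_le_const fun t ht => ?_
    rw [uIoc_of_le hy.le] at ht
    rw [Real.norm_eq_abs]
    refine (h t ht.1 (ht.2.trans hy5)).trans (mul_le_mul_of_nonneg_left ?_ hC)
    refine Real.exp_le_exp.2 (neg_le_neg ?_)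
    exact inv_anti₀ ht.1 ht.2
  have e6 : NN y - (al / 2 * (y⁻¹) ^ 2 + (NN 5 - al / 50 + ∫ t in (0:ℝ)..5, er t)) =
      -∫ t in (0:ℝ)..y, er t := by
    rw [e2, e3, e4]
    linarith
  rw [e6, abs_neg]
  refine e5.trans ?_
  rw [sub_zero, abs_of_pos hy]
  have h7 : C * Real.exp (-y⁻¹) * y ≤ C * Real.exp (-y⁻¹) * 5 :=
    mul_le_mul_of_nonneg_left hy5 (by positivity)
  linarith

theorem n1_eq {y : ℝ} (hy : 0 < y) :
    n1 y = -(Real.pi ^ 3 * (NN y + NN (2 * y) - 2 * NN (4 * y))) := by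
  have i1 := g_int hy
  have i2 : IntegrableOn (fun t : ℝ => g (2 * t)) (Ioi y) :=
    (integrableOn_Ioi_comp_mul_left_iff g y (by norm_num : (0:ℝ) < 2)).2 (g_int (by positivity))
  have i4 : IntegrableOn (fun t : ℝ => g (4 * t)) (Ioi y) :=
    (integrableOn_Ioi_comp_mul_left_iff g y (by norm_num : (0:ℝ) < 4)).2 (g_int (by positivity))
  have e1 : ∫ t in Ioi y, D1 t =
      ∫ t in Ioi y, Real.pi ^ 3 * ((g t + 2 * g (2 * t)) - 8 * g (4 * t)) :=
    setIntegral_congr_fun measurableSet_Ioi fun t ht => D1_eq (lt_trans hy ht)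
  have e2 := integral_comp_mul_left_Ioi g y (by norm_num : (0:ℝ) < 2)
  have e3 := integral_comp_mul_left_Ioi g y (by norm_num : (0:ℝ) < 4)
  have i12 : IntegrableOn (fun t : ℝ => g t + 2 * g (2 * t)) (Ioi y) := i1.add (i2.const_mul 2)
  unfold n1
  rw [e1, integral_const_mul, integral_sub i12 (i4.const_mul 8),
    integral_add i1 (i2.const_mul 2), integral_const_mul, integral_const_mul, e2, e3]
  unfold NN
  simp only [smul_eq_mul]
  ring

theorem s3n (xt : G_XT) (_par : G_PAR) (_n1 : G_N1) : S3n := by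
  obtain ⟨κ, C, hC, h⟩ := NN_eq xt
  refine ⟨Real.pi ^ 3 * (4 * C), 1 / 4, by norm_num, fun y hy hy1 => ?_⟩
  have h1 := h y hy (by linarith)
  have h2 := h (2 * y) (by positivity) (by linarith)
  have h4 := h (4 * y) (by positivity) (by linarith)
  have hpi := Real.pi_pos
  have x1 : Real.exp (-y⁻¹) ≤ Real.exp (-(1 / 4 / y)) := by
    refine Real.exp_le_exp.2 (neg_le_neg ?_)
    rw [div_eq_mul_inv (1 / 4 : ℝ)]
    have := inv_pos.2 hy
    linarith
  have x2 : Real.exp (-(2 * y)⁻¹) ≤ Real.exp (-(1 / 4 / y)) := by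
    refine Real.exp_le_exp.2 (neg_le_neg ?_)
    rw [div_eq_mul_inv (1 / 4 : ℝ), mul_inv]
    have := inv_pos.2 hy
    norm_num
    linarith
  have x4 : Real.exp (-(4 * y)⁻¹) ≤ Real.exp (-(1 / 4 / y)) := by
    refine Real.exp_le_exp.2 (neg_le_neg ?_)
    rw [div_eq_mul_inv (1 / 4 : ℝ), mul_inv]
    norm_num
  have h1' := h1.trans (mul_le_mul_of_nonneg_left x1 hC)
  have h2' := h2.trans (mul_le_mul_of_nonneg_left x2 hC)
  have h4' := h4.trans (mul_le_mul_of_nonneg_left x4 hC)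
  have hs : Real.sqrt 3 * Real.sqrt 3 = 3 := Real.mul_self_sqrt (by norm_num)
  have hal : Real.sqrt 3 * Real.pi ^ 3 / 54 = Real.pi ^ 3 * (9 / 16 * al) := by
    unfold al
    have h3 : Real.sqrt 3 ≠ 0 := by positivity
    field_simp
    nlinarith
  rw [n1_eq hy, hal]
  have e : -(Real.pi ^ 3 * (NN y + NN (2 * y) - 2 * NN (4 * y))) +
      Real.pi ^ 3 * (9 / 16 * al) * (y⁻¹) ^ 2 =
      -(Real.pi ^ 3 * ((NN y - (al / 2 * (y⁻¹) ^ 2 + κ)) +
        (NN (2 * y) - (al / 2 * ((2 * y)⁻¹) ^ 2 + κ)) -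
        2 * (NN (4 * y) - (al / 2 * ((4 * y)⁻¹) ^ 2 + κ)))) := by
    rw [mul_inv, mul_inv]
    ring
  rw [e, abs_neg, abs_mul, abs_of_pos (by positivity), mul_assoc]
  refine mul_le_mul_of_nonneg_left ?_ (by positivity)
  rw [abs_le] at h1' h2' h4' ⊢
  obtain ⟨a1, a2⟩ := h1'
  obtain ⟨b1, b2⟩ := h2'
  obtain ⟨c1, c2⟩ := h4'
  constructor <;> nlinarith

theorem s3d (xt : G_XT) (_par : G_PAR) : S3d := by
  obtain ⟨C, hC, h⟩ := er_bound xt
  refine ⟨Real.pi ^ 3 * (11 * C), 1 / 4, by norm_num, fun y hy hy1 => ?_⟩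
  have h1 := h y hy (by linarith)
  have h2 := h (2 * y) (by positivity) (by linarith)
  have h4 := h (4 * y) (by positivity) (by linarith)
  have hpi := Real.pi_pos
  have x1 : Real.exp (-y⁻¹) ≤ Real.exp (-(1 / 4 / y)) := by
    refine Real.exp_le_exp.2 (neg_le_neg ?_)
    rw [div_eq_mul_inv (1 / 4 : ℝ)]
    have := inv_pos.2 hy
    linarith
  have x2 : Real.exp (-(2 * y)⁻¹) ≤ Real.exp (-(1 / 4 / y)) := by
    refine Real.exp_le_exp.2 (neg_le_neg ?_)
    rw [div_eq_mul_inv (1 / 4 : ℝ), mul_inv]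
    have := inv_pos.2 hy
    norm_num
    linarith
  have x4 : Real.exp (-(4 * y)⁻¹) ≤ Real.exp (-(1 / 4 / y)) := by
    refine Real.exp_le_exp.2 (neg_le_neg ?_)
    rw [div_eq_mul_inv (1 / 4 : ℝ), mul_inv]
    norm_num
  have h1' := h1.trans (mul_le_mul_of_nonneg_left x1 hC)
  have h2' := h2.trans (mul_le_mul_of_nonneg_left x2 hC)
  have h4' := h4.trans (mul_le_mul_of_nonneg_left x4 hC)
  have hs : Real.sqrt 3 * Real.sqrt 3 = 3 := Real.mul_self_sqrt (by norm_num)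
  have hal : Real.sqrt 3 * Real.pi ^ 3 / 27 = Real.pi ^ 3 * (9 / 8 * al) := by
    unfold al
    have h3 : Real.sqrt 3 ≠ 0 := by positivity
    field_simp
    nlinarith
  rw [D1_eq hy, hal]
  have e : Real.pi ^ 3 * (g y + 2 * g (2 * y) - 8 * g (4 * y)) -
      Real.pi ^ 3 * (9 / 8 * al) * (y⁻¹) ^ 3 =
      Real.pi ^ 3 * (er y + 2 * er (2 * y) - 8 * er (4 * y)) := by
    unfold er
    rw [mul_inv, mul_inv]
    ring
  rw [e, abs_mul, abs_of_pos (by positivity), mul_assoc]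
  refine mul_le_mul_of_nonneg_left ?_ (by positivity)
  rw [abs_le] at h1' h2' h4' ⊢
  obtain ⟨a1, a2⟩ := h1'
  obtain ⟨b1, b2⟩ := h2'
  obtain ⟨c1, c2⟩ := h4'
  constructor <;> nlinarith

end ECC.PkS3N
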